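import Pool.Agent.R877.RN.Stm

/-!
Project RN: the piece NEC.
-/

set_option autoImplicit false

namespace Pool.Agent.R227.RN

open Matrix R877.RN

variable {n : ℕ}

theorem par_mul {a : Fin n → ℝ} {X Y : Mat n} (hX : Par a X) (hY : Par a Y) :
    Par a (X * Y) := by
  intro i j h
  rw [Matrix.mul_apply] at h
  obtain ⟨r, _, hr⟩ := Finset.exists_ne_zero_of_sum_ne_zero h
  exact (hY r j (right_ne_zero_of_mul hr)).trans (hX i r (left_ne_zero_of_mul hr))

theorem asym_act (c : Mat n) {μ : Br n} (h : Asym μ) : Asym (act c μ) := by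
  intro i j k
  unfold act
  rw [Finset.sum_comm, ← Finset.sum_neg_distrib]
  refine Finset.sum_congr rfl fun p _ => ?_
  rw [← Finset.sum_neg_distrib]
  refine Finset.sum_congr rfl fun q _ => ?_
  rw [← Finset.sum_neg_distrib]
  refine Finset.sum_congr rfl fun r _ => ?_
  rw [h q p r]
  ring

theorem tr_mul {l : Mat n} (h : IsO l) : lᵀ * l = 1 := mul_eq_one_comm.1 h

theorem det_unit {l : Mat n} (h : IsO l) : IsUnit l.det := by
  have h1 : l.det * lᵀ.det = 1 := by rw [← det_mul, h, det_one]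
  exact IsUnit.of_mul_eq_one _ h1

theorem qf_row (k M : Mat n) (p : Fin n) : qf M (k p) = (k * M * kᵀ) p p := by
  simp only [qf, dotProduct, mulVec, Matrix.mul_apply, transpose_apply, Finset.sum_mul,
    Finset.mul_sum]
  rw [Finset.sum_comm]
  refine Finset.sum_congr rfl fun i _ => Finset.sum_congr rfl fun j _ => ?_
  ring

theorem com_conj {k : Mat n} (hk : kᵀ * k = 1) (X : Mat n) :
    k * com X * kᵀ = com (k * X * kᵀ) := by
  have h : ∀ Z : Mat n, kᵀ * (k * Z) = Z := by
    intro Z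
    rw [← Matrix.mul_assoc, hk, Matrix.one_mul]
  simp only [com, transpose_mul, transpose_transpose, Matrix.mul_sub, Matrix.sub_mul,
    Matrix.mul_assoc, h]

theorem com_nonneg {a : Fin n → ℝ} {X : Mat n} (hX : Par a X) :
    0 ≤ ∑ p, a p * (com X) p p := by
  have h : ∑ p, a p * (com X) p p = ∑ p, ∑ q, (a p - a q) * (X p q) ^ 2 := by
    have h1 : ∑ p, a p * (com X) p p
        = (∑ p, ∑ q, a p * (X p q) ^ 2) - ∑ p, ∑ q, a p * (X q p) ^ 2 := by
      rw [← Finset.sum_sub_distrib]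
      refine Finset.sum_congr rfl fun p _ => ?_
      simp only [com, Matrix.sub_apply, Matrix.mul_apply, transpose_apply, mul_sub,
        Finset.mul_sum]
      congr 1 <;> refine Finset.sum_congr rfl fun q _ => ?_ <;> ring
    rw [h1]
    have h2 : ∑ p, ∑ q, a p * (X q p) ^ 2 = ∑ p, ∑ q, a q * (X p q) ^ 2 := Finset.sum_comm
    rw [h2, ← Finset.sum_sub_distrib]
    refine Finset.sum_congr rfl fun p _ => ?_
    rw [← Finset.sum_sub_distrib]
    refine Finset.sum_congr rfl fun q _ => ?_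
    ring
  rw [h]
  refine Finset.sum_nonneg fun p _ => Finset.sum_nonneg fun q _ => ?_
  by_cases h0 : X p q = 0
  · simp [h0]
  · exact mul_nonneg (sub_nonneg.2 (hX p q h0)) (sq_nonneg _)

theorem p_NEC (hQR : P_QR) (hPINV : P_PINV) (hBT : P_BT) (hACTP : P_ACTP) (hMUL : P_ACTMUL)
    (hMROT : P_MROT) (hMTR : P_MTR) : P_NEC := by
  intro n m μ A D F c δ hμ hc hF hine l a hl ha hCB hCM hCD
  have hlt : lᵀ * l = 1 := tr_mul hl
  have hld : IsUnit l.det := det_unit hl
  have hcl : IsUnit (c * lᵀ).det := by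
    rw [det_mul, det_transpose]
    exact hc.mul hld
  obtain ⟨k, hk, hPar⟩ := hQR n a (c * lᵀ) hcl
  have hkt : kᵀ * k = 1 := tr_mul hk
  have hkd : IsUnit k.det := det_unit hk
  set R : Mat n := k * (c * lᵀ) with hR
  have hRd : IsUnit R.det := by
    rw [hR, det_mul]
    exact hkd.mul hcl
  have hRl : R * l = k * c := by
    rw [hR, Matrix.mul_assoc, Matrix.mul_assoc, hlt, Matrix.mul_one]
  have hcc : c * c⁻¹ = 1 := mul_nonsing_inv c hc
  have hRinv : R⁻¹ = l * c⁻¹ * kᵀ := by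
    refine inv_eq_right_inv ?_
    rw [hR]
    calc k * (c * lᵀ) * (l * c⁻¹ * kᵀ) = k * (c * (lᵀ * l) * c⁻¹) * kᵀ := by
          simp only [Matrix.mul_assoc]
      _ = 1 := by
          rw [hlt, Matrix.mul_one, hcc, Matrix.mul_one]
          exact hk
  have hRP : Par a R⁻¹ := hPINV n a R hRd hPar
  -- conjugation
  have hconj : ∀ X : Mat n, k * conj c X * kᵀ = R * (l * X * lᵀ) * R⁻¹ := by
    intro X
    rw [hRinv]
    calc k * conj c X * kᵀ = k * (c * X * c⁻¹) * kᵀ := rfl
      _ = k * (c * (lᵀ * l) * X * (lᵀ * l) * c⁻¹) * kᵀ := by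
          rw [hlt, Matrix.mul_one, Matrix.mul_one]
      _ = R * (l * X * lᵀ) * (l * c⁻¹ * kᵀ) := by
          rw [hR]
          simp only [Matrix.mul_assoc]
  -- the bracket part
  have hact : act R (act l μ) = act k (act c μ) := by
    rw [← hMUL n R l μ hRd hld, hRl, hMUL n k c μ hkd hc]
  have hcompat : ∀ i j q, act k (act c μ) i j q ≠ 0 → a i + a j ≤ a q := by
    intro i j q h
    rw [← hact] at h
    exact hACTP n a R (act l μ) hRd hPar hCB i j q h
  have h1 : 0 ≤ ∑ p, a p * (k * Mm (act c μ) * kᵀ) p p := by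
    rw [← hMROT n k (act c μ) hk]
    rw [hMTR n (act k (act c μ)) a (asym_act k (asym_act c hμ))]
    refine mul_nonneg (by norm_num) (Finset.sum_nonneg fun i _ => Finset.sum_nonneg fun j _ =>
      Finset.sum_nonneg fun q _ => ?_)
    by_cases h0 : act k (act c μ) i j q = 0
    · simp [h0]
    · exact mul_nonneg (by have := hcompat i j q h0; linarith) (sq_nonneg _)
  have h2 : ∀ i, 0 ≤ ∑ p, a p * (k * com (conj c (A i)) * kᵀ) p p := by
    intro i
    rw [com_conj hkt, hconj]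
    exact com_nonneg (par_mul (par_mul hPar (hCM i)) hRP)
  have h3 : ∑ p, a p * (k * conj c D * kᵀ) p p = dt D l a := by
    rw [hconj]
    exact hBT n a R (l * D * lᵀ) hRd hPar hCD
  have h4 : ∀ p, (k * Mm (act c μ) * kᵀ) p p
      + (1 / 2) * ∑ i, (k * com (conj c (A i)) * kᵀ) p p ≤ (k * conj c D * kᵀ) p p - δ := by
    intro p
    have h := hine (k p)
    have hx : (k p) ⬝ᵥ (k p) = 1 := by
      have h5 : (k * kᵀ) p p = 1 := by rw [show k * kᵀ = 1 from hk, one_apply_eq]
      rw [Matrix.mul_apply] at h5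
      exact h5
    rw [hx, mul_one, qf_row, qf_row] at h
    have hF' : 0 ≤ (k * F * kᵀ) p p := by
      rw [← qf_row]
      exact hF _
    have hexp : (k * (Mm (act c μ) + (1 / 2 : ℝ) • ∑ i, com (conj c (A i)) + F) * kᵀ) p p
        = (k * Mm (act c μ) * kᵀ) p p + (1 / 2) * ∑ i, (k * com (conj c (A i)) * kᵀ) p p
          + (k * F * kᵀ) p p := by
      simp only [Matrix.mul_add, Matrix.add_mul, Matrix.mul_smul, Matrix.smul_mul,
        Matrix.mul_sum, Matrix.sum_mul, Matrix.add_apply, Matrix.smul_apply, Matrix.sum_apply,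
        smul_eq_mul]
    rw [hexp] at h
    linarith
  have h5 : ∑ p, a p * ((k * Mm (act c μ) * kᵀ) p p
      + (1 / 2) * ∑ i, (k * com (conj c (A i)) * kᵀ) p p)
      ≤ ∑ p, a p * ((k * conj c D * kᵀ) p p - δ) :=
    Finset.sum_le_sum fun p _ => mul_le_mul_of_nonneg_left (h4 p) (ha p)
  have h6 : ∑ p, a p * ((k * Mm (act c μ) * kᵀ) p p
      + (1 / 2) * ∑ i, (k * com (conj c (A i)) * kᵀ) p p)
      = ∑ p, a p * (k * Mm (act c μ) * kᵀ) p p
        + (1 / 2) * ∑ i, ∑ p, a p * (k * com (conj c (A i)) * kᵀ) p p := by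
    simp only [mul_add, Finset.sum_add_distrib]
    congr 1
    rw [Finset.sum_comm, Finset.mul_sum]
    refine Finset.sum_congr rfl fun p _ => ?_
    rw [← Finset.mul_sum]
    ring
  have h7 : ∑ p, a p * ((k * conj c D * kᵀ) p p - δ) = dt D l a - δ * ∑ i, a i := by
    rw [← h3, Finset.mul_sum, ← Finset.sum_sub_distrib]
    refine Finset.sum_congr rfl fun p _ => ?_
    ring
  rw [h6, h7] at h5
  have h8 : 0 ≤ ∑ i, ∑ p, a p * (k * com (conj c (A i)) * kᵀ) p p :=
    Finset.sum_nonneg fun i _ => h2 i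
  linarith

end Pool.Agent.R227.RN
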